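import Pool.Agent.MVD.Stmts

/-!
# Squad MVD, row ASM
-/

set_option autoImplicit false

namespace Pool.Agent.MVD.H32

open Pool.Agent.Helper14_MV Pool.Agent.Helper2_MV

theorem asm (mi : MirStmt) (cor : CorStmt) (nt3 : Nt3Stmt) (nt4 : Nt4Stmt) (nt5 : Nt5Stmt)
    (f1k : F1kStmt) (ffc : FfcStmt) (ffl : FflStmt) (ffr : FfrStmt) : AsmStmt := by
  intro β hM h2 h3
  -- the case `A1`, `B2`
  have core : ∀ γ : FIC, ModF γ → Iso2 γ → Iso3 γ → ¬ S2 γ → A1 γ → B2 γ →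
      F1L γ ∧ FF γ ∧ ZZ γ := by
    intro γ gM g2 g3 gS gA gB
    obtain ⟨_, m1, m2, m3, _, m5, _, _, _, _, _, _, m12, _, _, m15⟩ := mi γ
    have hF := f1k γ gM g2 g3 gA gB
    exact ⟨hF, ffl γ gM g2 g3 gS hF,
      m12.1 (ffr (mir γ) (m1 gM) (m2 g2) (m3 g3) (fun h => gS (m5.1 h)) (m15.2 hF))⟩
  obtain ⟨_, m1, m2, m3, m4, m5, m6, m7, m8, m9, m10, m11, m12, m13, m14, m15⟩ := mi β
  have n1 := m1 hM
  have n2 := m2 h2
  have n3 := m3 h3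
  by_cases hS2 : S2 β
  · by_cases hS1 : S1 β
    · exact Or.inl ⟨hS1, hS2, nt5 β hM h2 h3 hS1 hS2⟩
    by_cases hS3 : S3 β
    · exact Or.inr (Or.inl ⟨hS2, hS3, m7.1 (nt5 (mir β) n1 n2 n3 (m4.2 hS3) (m5.2 hS2))⟩)
    · refine Or.inr (Or.inr (Or.inl ⟨hS2, ffc β hM h2 h3 hS2 hS1 hS3, m12.1 ?_⟩))
      exact ffc (mir β) n1 n2 n3 (m5.2 hS2) (fun h => hS3 (m4.1 h)) (fun h => hS1 (m6.1 h))
  · obtain ⟨hA, hB⟩ := cor β hM h2 h3
    have h4 := nt3 β hM h2 h3 hA hB hS2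
    have h5 := nt4 β hM h2 h3 hS2
    have h6 : (A1 β ∧ B2 β) ∨ (A2 β ∧ B3 β) := by
      rcases hA with hA | hA
      · rcases hB with hB | hB
        · exact Or.inl ⟨hA, hB⟩
        · rcases h4 with h4 | h4
          · exact Or.inr ⟨h4, hB⟩
          · exact Or.inl ⟨hA, h4⟩
      · rcases hB with hB | hB
        · rcases h5 hA hB with h7 | h7
          · exact Or.inl ⟨h7, hB⟩
          · exact Or.inr ⟨hA, h7⟩
        · exact Or.inr ⟨hA, hB⟩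
    rcases h6 with ⟨hA1, hB2⟩ | ⟨hA2, hB3⟩
    · exact Or.inr (Or.inr (Or.inr (Or.inl (core β hM h2 h3 hS2 hA1 hB2))))
    · obtain ⟨c1, c2, c3⟩ := core (mir β) n1 n2 n3 (fun h => hS2 (m5.1 h)) (m8.2 hB3)
        (m10.2 hA2)
      exact Or.inr (Or.inr (Or.inr (Or.inr ⟨m14.1 c1, m13.1 c3, m12.1 c2⟩)))

end Pool.Agent.MVD.H32
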