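import Pool.Agent.MVD.Stmts

/-!
# Squad MVD, row GEN
-/

set_option autoImplicit false

namespace Pool.Agent.MVD.H32

open Pool.Agent.Helper14_MV Pool.Agent.Helper2_MV

theorem gen : GenStmt := by
  intro β G
  let θ : FIC :=
    { r := fun u v => ∀ τ : FIC, β ≤ τ → (∀ e, G e → RR τ e.1 e.2) → τ.r u v
      refl := fun a τ _ _ => τ.refl a
      symm := fun h τ h1 h2 => τ.symm (h τ h1 h2)
      trans := fun h h' τ h1 h2 => τ.trans (h τ h1 h2) (h' τ h1 h2)
      mul := fun h h' τ h1 h2 => τ.mul (h τ h1 h2) (h' τ h1 h2)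
      sub := fun φ _ _ h τ h1 h2 => τ.sub φ (h τ h1 h2) }
  have hmin : ∀ θ' : FIC, β ≤ θ' → (∀ e, G e → RR θ' e.1 e.2) → θ ≤ θ' :=
    fun θ' h1 h2 a b hab => hab θ' h1 h2
  refine ⟨θ, fun a b hab τ h1 _ => h1 a b hab, fun e he τ _ h2 => h2 e he, hmin, ?_⟩
  intro S hS hG w w' hw hSw
  have h1 : β ≤ gam (fun u => S u.toList) := by
    intro a b hab φ m q
    have h3 : β.r (m * φ a * q) (m * φ b * q) :=
      β.mul (β.mul (β.refl m) (β.sub φ hab)) (β.refl q)
    exact ⟨hS _ _ h3, hS _ _ (β.symm h3)⟩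
  have h2 : ∀ e, G e → RR (gam (fun u => S u.toList)) e.1 e.2 := by
    intro e he φ m q
    have h3 := hG e he (fun i => (φ (FreeMonoid.of i)).toList) m.toList q.toList
    have h5 : ∀ l : List ℕ, (m * φ (FreeMonoid.ofList l) * q).toList =
        m.toList ++ (l.flatMap (fun i => (φ (FreeMonoid.of i)).toList) ++ q.toList) := by
      intro l
      rw [FreeMonoid.toList_mul, FreeMonoid.toList_mul, toList_hom φ, FreeMonoid.toList_ofList,
        List.append_assoc]
    change S (m * φ (FreeMonoid.ofList e.1) * q).toList ↔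
      S (m * φ (FreeMonoid.ofList e.2) * q).toList
    rw [h5, h5]
    exact h3
  have h4 := gam_self (hmin _ h1 h2 _ _ hw)
  simp only [FreeMonoid.toList_ofList] at h4
  exact h4.1 hSw

end Pool.Agent.MVD.H32
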